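import Pool.Agent.Work.MP_b29d7f_ns.Interface3

set_option autoImplicit false

open Finset Filter Topology MeasureTheory NumberField NumberField.mixedEmbedding

namespace Pool.NS.MK0_

set_option linter.unusedSectionVars false

variable (K : Type) [Field K] [NumberField K]

open scoped Classical

/-- closed box -/
def Bc (c : mixedSpace K) (ρ : InfinitePlace K → ℝ) : Set (mixedSpace K) :=
  {y | ∀ w, normAtPlace w (y - c) ≤ ρ w}

/-- open box -/
def Uo (c : mixedSpace K) (ρ : InfinitePlace K → ℝ) : Set (mixedSpace K) :=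
  {y | ∀ w, normAtPlace w (y - c) < ρ w}

lemma normAtPlace_le_norm (w : InfinitePlace K) (y : mixedSpace K) : normAtPlace w y ≤ ‖y‖ := by
  rw [norm_eq_sup'_normAtPlace]
  exact Finset.le_sup' (fun w => normAtPlace w y) (Finset.mem_univ w)

lemma exists_D : ∃ D : ℝ, 0 ≤ D ∧ ∀ y ∈ ZSpan.fundamentalDomain (latticeBasis K), ∀ w,
    normAtPlace w y ≤ D := by
  obtain ⟨D, hD⟩ := (ZSpan.fundamentalDomain_isBounded (latticeBasis K)).exists_norm_le
  refine ⟨max D 0, le_max_right _ _, fun y hy w => ?_⟩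
  exact (normAtPlace_le_norm K w y).trans ((hD y hy).trans (le_max_left _ _))

lemma mem_convexBodyLT_iff (f : InfinitePlace K → NNReal) (y : mixedSpace K) :
    y ∈ convexBodyLT K f ↔ ∀ w, normAtPlace w y < f w := by
  simp only [convexBodyLT, Set.mem_prod, Set.mem_pi, Set.mem_univ, forall_true_left,
    mem_ball_zero_iff]
  constructor
  · rintro ⟨h1, h2⟩ w
    by_cases hw : w.IsReal
    · rw [normAtPlace_apply_of_isReal hw]; exact h1 ⟨w, hw⟩
    · rw [normAtPlace_apply_of_isComplex (InfinitePlace.not_isReal_iff_isComplex.1 hw)]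
      exact h2 ⟨w, InfinitePlace.not_isReal_iff_isComplex.1 hw⟩
  · intro h
    constructor
    · rintro ⟨w, hw⟩
      have := h w
      rwa [normAtPlace_apply_of_isReal hw] at this
    · rintro ⟨w, hw⟩
      have := h w
      rwa [normAtPlace_apply_of_isComplex hw] at this

lemma volume_Uo (c : mixedSpace K) (ρ : InfinitePlace K → ℝ) (hρ : ∀ w, 0 ≤ ρ w) :
    volume (Uo K c ρ) = ENNReal.ofReal ((convexBodyLTFactor K : ℝ) * ∏ w, ρ w ^ w.mult) := by
  have h1 : Uo K c ρ = (fun y => y + (-c)) ⁻¹' (convexBodyLT K fun w => (ρ w).toNNReal) := by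
    ext y
    rw [Set.mem_preimage, mem_convexBodyLT_iff]
    simp only [Uo, Set.mem_ofPred_eq, ← sub_eq_add_neg, Real.coe_toNNReal _ (hρ _)]
  have h2 : (convexBodyLTFactor K : ℝ) * ∏ w, ρ w ^ w.mult
      = ((convexBodyLTFactor K * ∏ w, (ρ w).toNNReal ^ w.mult : NNReal) : ℝ) := by
    push_cast
    congr 1
    apply Finset.prod_congr rfl
    intro w _
    rw [Real.coe_toNNReal _ (hρ _)]
  rw [h1, measure_preimage_add_right, convexBodyLT_volume, h2, ENNReal.ofReal_coe_nnreal]
  push_cast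
  rfl

lemma measurable_Uo (c : mixedSpace K) (ρ : InfinitePlace K → ℝ) : MeasurableSet (Uo K c ρ) := by
  have : Uo K c ρ = ⋂ w, {y | normAtPlace w (y - c) < ρ w} := by
    ext y; simp [Uo]
  rw [this]
  refine MeasurableSet.iInter fun w => ?_
  apply IsOpen.measurableSet
  exact isOpen_lt ((continuous_normAtPlace w).comp (continuous_id.sub continuous_const))
    continuous_const

lemma bounded_Bc (c : mixedSpace K) (ρ : InfinitePlace K → ℝ) :
    Bornology.IsBounded (Bc K c ρ) := by
  rw [isBounded_iff_forall_norm_le]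
  refine ⟨‖c‖ + ∑ w, |ρ w|, fun y hy => ?_⟩
  have h1 : ‖y - c‖ ≤ ∑ w, |ρ w| := by
    rw [norm_eq_sup'_normAtPlace]
    apply Finset.sup'_le
    intro w _
    refine (hy w).trans ((le_abs_self _).trans ?_)
    exact Finset.single_le_sum (f := fun w => |ρ w|) (fun _ _ => abs_nonneg _)
      (Finset.mem_univ w)
  calc ‖y‖ = ‖c + (y - c)‖ := by congr 1; abel
    _ ≤ ‖c‖ + ‖y - c‖ := norm_add_le _ _
    _ ≤ _ := by gcongr

/-- the box of integers -/
def S (c : K) (ρ : InfinitePlace K → ℝ) : Set (𝓞 K) :=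
  {x : 𝓞 K | ∀ w : InfinitePlace K, w ((x : K) - c) ≤ ρ w}

/-- the embedding of the integers -/
noncomputable def em (x : 𝓞 K) : mixedSpace K := mixedEmbedding K (x : K)

lemma em_injective : Function.Injective (em K) := by
  intro x y h
  have := mixedEmbedding_injective K h
  exact RingOfIntegers.coe_injective this

lemma em_mem_span (x : 𝓞 K) : em K x ∈ Submodule.span ℤ (Set.range (latticeBasis K)) := by
  rw [mem_span_latticeBasis]
  exact ⟨x, rfl⟩

lemma exists_em {v : mixedSpace K} (hv : v ∈ Submodule.span ℤ (Set.range (latticeBasis K))) :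
    ∃ x : 𝓞 K, em K x = v := by
  rw [mem_span_latticeBasis] at hv
  obtain ⟨x, hx⟩ := hv
  exact ⟨x, hx⟩

lemma mem_S {c : K} {ρ : InfinitePlace K → ℝ} {x : 𝓞 K} :
    x ∈ S K c ρ ↔ em K x ∈ Bc K (mixedEmbedding K c) ρ := by
  unfold S Bc em
  rw [Set.mem_ofPred_eq, Set.mem_ofPred_eq]
  simp only [← map_sub, normAtPlace_apply]

lemma finite_S (c : K) (ρ : InfinitePlace K → ℝ) : (S K c ρ).Finite := by
  have h1 := ZSpan.setFinite_inter (latticeBasis K) (bounded_Bc K (mixedEmbedding K c) ρ)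
  apply Set.Finite.of_finite_image (f := em K) _ (em_injective K).injOn
  apply h1.subset
  rintro _ ⟨x, hx, rfl⟩
  exact ⟨(mem_S K).1 hx, em_mem_span K x⟩

/-- translates of the fundamental domain -/
def Tr (x : 𝓞 K) : Set (mixedSpace K) :=
  (fun y => y + (- em K x)) ⁻¹' ZSpan.fundamentalDomain (latticeBasis K)

lemma mem_Tr {x : 𝓞 K} {y : mixedSpace K} :
    y ∈ Tr K x ↔ y - em K x ∈ ZSpan.fundamentalDomain (latticeBasis K) := by
  rw [sub_eq_add_neg]; rfl

lemma volume_Tr (x : 𝓞 K) :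
    volume (Tr K x) = volume (ZSpan.fundamentalDomain (latticeBasis K)) := by
  unfold Tr
  rw [measure_preimage_add_right]

lemma measurable_Tr (x : 𝓞 K) : MeasurableSet (Tr K x) := by
  unfold Tr
  apply (ZSpan.fundamentalDomain_measurableSet (latticeBasis K)).preimage
  exact measurable_id.add_const _

lemma disjoint_Tr {x x' : 𝓞 K} (h : x ≠ x') : Disjoint (Tr K x) (Tr K x') := by
  rw [Set.disjoint_left]
  intro y hy hy'
  rw [mem_Tr] at hy hy'
  apply h
  apply em_injective K
  obtain ⟨v, _, hv⟩ := ZSpan.exist_unique_vadd_mem_fundamentalDomain (latticeBasis K) y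
  have e1 := hv ⟨- em K x, Submodule.neg_mem _ (em_mem_span K x)⟩ (by
    change - em K x + y ∈ _
    rwa [neg_add_eq_sub])
  have e2 := hv ⟨- em K x', Submodule.neg_mem _ (em_mem_span K x')⟩ (by
    change - em K x' + y ∈ _
    rwa [neg_add_eq_sub])
  have e3 := e1.trans e2.symm
  have e4 := congrArg Subtype.val e3
  exact neg_injective e4

lemma exists_Tr (y : mixedSpace K) : ∃ x, y ∈ Tr K x := by
  obtain ⟨v, hv, _⟩ := ZSpan.exist_unique_vadd_mem_fundamentalDomain (latticeBasis K) y
  obtain ⟨x, hx⟩ := exists_em K (Submodule.neg_mem _ v.2)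
  refine ⟨x, ?_⟩
  rw [mem_Tr, hx, sub_neg_eq_add, add_comm]
  exact hv

lemma pow_le_aux (D : ℝ) (hD : 0 ≤ D) (t : ℝ) (ht0 : 0 ≤ t) (ht : t ≤ 1) (d : ℕ) :
    (1 + t * D) ^ d ≤ 1 + t * ((1 + D) ^ d - 1) := by
  induction d with
  | zero => simp
  | succ d ih =>
    have h1 : 0 ≤ (1 + D) ^ d - 1 := by
      have := one_le_pow₀ (n := d) (show (1 : ℝ) ≤ 1 + D by linarith)
      linarith
    calc (1 + t * D) ^ (d + 1) = (1 + t * D) ^ d * (1 + t * D) := pow_succ _ _
      _ ≤ (1 + t * ((1 + D) ^ d - 1)) * (1 + t * D) := by gcongr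
      _ = 1 + t * ((1 + D) ^ d - 1) + t * D + t * t * (((1 + D) ^ d - 1) * D) := by ring
      _ ≤ 1 + t * ((1 + D) ^ d - 1) + t * D + t * 1 * (((1 + D) ^ d - 1) * D) := by gcongr
      _ = _ := by rw [pow_succ]; ring

lemma prod_pow_mult_const (a : ℝ) :
    ∏ w : InfinitePlace K, a ^ w.mult = a ^ Module.finrank ℚ K := by
  rw [Finset.prod_pow_eq_pow_sum, InfinitePlace.sum_mult_eq]

lemma upper (D : ℝ) (hD : 0 ≤ D) (r : ℝ) (hr : 1 ≤ r) (ρ : InfinitePlace K → ℝ)
    (hρ : ∀ w, r ≤ ρ w) :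
    ∏ w, (ρ w + D) ^ w.mult ≤
      (∏ w, ρ w ^ w.mult) * (1 + ((1 + D) ^ Module.finrank ℚ K - 1) / r) := by
  have hr0 : 0 < r := by linarith
  have h1 : ∀ w, (ρ w + D) ^ w.mult ≤ ρ w ^ w.mult * (1 + 1 / r * D) ^ w.mult := by
    intro w
    rw [← mul_pow]
    have hw : 0 < ρ w := hr0.trans_le (hρ w)
    apply pow_le_pow_left₀ (by positivity)
    have : D ≤ ρ w * (1 / r * D) := by
      have h2 : 1 ≤ ρ w / r := by rw [le_div_iff₀ hr0]; linarith [hρ w]
      calc D = 1 * D := (one_mul D).symm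
        _ ≤ (ρ w / r) * D := by gcongr
        _ = _ := by ring
    linarith
  calc ∏ w, (ρ w + D) ^ w.mult ≤ ∏ w, (ρ w ^ w.mult * (1 + 1 / r * D) ^ w.mult) := by
        apply Finset.prod_le_prod
        · intro w _
          have hw : 0 < ρ w := hr0.trans_le (hρ w)
          positivity
        · intro w _; exact h1 w
    _ = (∏ w, ρ w ^ w.mult) * (1 + 1 / r * D) ^ Module.finrank ℚ K := by
        rw [Finset.prod_mul_distrib, prod_pow_mult_const]
    _ ≤ (∏ w, ρ w ^ w.mult) * (1 + 1 / r * ((1 + D) ^ Module.finrank ℚ K - 1)) := by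
        apply mul_le_mul_of_nonneg_left
        · apply pow_le_aux D hD (1 / r) (by positivity)
          rw [div_le_one hr0]; exact hr
        · apply Finset.prod_nonneg
          intro w _
          have hw : 0 < ρ w := hr0.trans_le (hρ w)
          positivity
    _ = _ := by ring

lemma lower (D : ℝ) (hD : 0 ≤ D) (r : ℝ) (hr : 1 ≤ r) (hDr : D ≤ r) (ρ : InfinitePlace K → ℝ)
    (hρ : ∀ w, r ≤ ρ w) :
    (∏ w, ρ w ^ w.mult) * (1 - (Module.finrank ℚ K : ℝ) * D / r) ≤
      ∏ w, (ρ w - D) ^ w.mult := by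
  have hr0 : 0 < r := by linarith
  have h0 : 0 ≤ 1 - 1 / r * D := by
    have : 1 / r * D ≤ 1 := by
      rw [one_div, inv_mul_le_iff₀ hr0]; linarith
    linarith
  have h1 : ∀ w, ρ w ^ w.mult * (1 - 1 / r * D) ^ w.mult ≤ (ρ w - D) ^ w.mult := by
    intro w
    rw [← mul_pow]
    have hw : 0 < ρ w := hr0.trans_le (hρ w)
    apply pow_le_pow_left₀ (by positivity)
    have : D ≤ ρ w * (1 / r * D) := by
      have h2 : 1 ≤ ρ w / r := by rw [le_div_iff₀ hr0]; linarith [hρ w]
      calc D = 1 * D := (one_mul D).symm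
        _ ≤ (ρ w / r) * D := by gcongr
        _ = _ := by ring
    linarith
  calc (∏ w, ρ w ^ w.mult) * (1 - (Module.finrank ℚ K : ℝ) * D / r)
      ≤ (∏ w, ρ w ^ w.mult) * (1 - 1 / r * D) ^ Module.finrank ℚ K := by
        apply mul_le_mul_of_nonneg_left
        · have := one_add_mul_le_pow (a := -(1 / r * D)) (by linarith) (Module.finrank ℚ K)
          calc 1 - (Module.finrank ℚ K : ℝ) * D / r
              = 1 + (Module.finrank ℚ K : ℝ) * (-(1 / r * D)) := by ring
            _ ≤ (1 + -(1 / r * D)) ^ Module.finrank ℚ K := this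
            _ = _ := by rw [← sub_eq_add_neg]
        · apply Finset.prod_nonneg
          intro w _
          have hw : 0 < ρ w := hr0.trans_le (hρ w)
          positivity
    _ = ∏ w, (ρ w ^ w.mult * (1 - 1 / r * D) ^ w.mult) := by
        rw [Finset.prod_mul_distrib, prod_pow_mult_const]
    _ ≤ _ := by
        apply Finset.prod_le_prod
        · intro w _
          have hw : 0 < ρ w := hr0.trans_le (hρ w)
          positivity
        · intro w _; exact h1 w

/-- the volume of the fundamental domain -/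
noncomputable def vF : ℝ := (volume (ZSpan.fundamentalDomain (latticeBasis K))).toReal

lemma volF_ne_top : volume (ZSpan.fundamentalDomain (latticeBasis K)) ≠ ⊤ :=
  (ZSpan.fundamentalDomain_isBounded (latticeBasis K)).measure_lt_top.ne

lemma vF_pos : 0 < vF K :=
  ENNReal.toReal_pos (ZSpan.measure_fundamentalDomain_ne_zero (latticeBasis K)) (volF_ne_top K)

lemma volume_biUnion (s : Finset (𝓞 K)) :
    volume (⋃ x ∈ s, Tr K x) = ENNReal.ofReal (s.card * vF K) := by
  rw [measure_biUnion_finset]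
  · rw [Finset.sum_congr rfl (fun x _ => volume_Tr K x), Finset.sum_const, nsmul_eq_mul,
      ENNReal.ofReal_mul (by positivity), ENNReal.ofReal_natCast, vF,
      ENNReal.ofReal_toReal (volF_ne_top K)]
  · intro x _ x' _ h
    exact disjoint_Tr K h
  · intro x _; exact measurable_Tr K x

end Pool.NS.MK0_

open Pool.NS.MK0_ in
theorem Pool.NS.stmt_MK0 : Pool.NS.Stmt_MK0 := by
  classical
  intro K _ _
  obtain ⟨D, hD0, hD⟩ := exists_D K
  set V₀ : ℝ := (convexBodyLTFactor K : ℝ) with hV₀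
  have hV₀pos : 0 < V₀ := by
    have := one_le_convexBodyLTFactor K
    have h2 : (1 : ℝ) ≤ V₀ := by exact_mod_cast this
    linarith
  have hvF := vF_pos K
  set d := Module.finrank ℚ K with hd
  set C₁ : ℝ := (1 + (D + 1)) ^ d - 1 with hC₁
  have hC₁0 : 0 ≤ C₁ := by
    have := one_le_pow₀ (n := d) (show (1 : ℝ) ≤ 1 + (D + 1) by linarith)
    linarith
  refine ⟨V₀ / vF K, V₀ / vF K * (C₁ + (d + 1) * D), by positivity, by positivity, ?_⟩
  intro r ρ c hr hρ
  have hr0 : 0 < r := by linarith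
  have hρ0 : ∀ w, 0 < ρ w := fun w => hr0.trans_le (hρ w)
  have hfin := finite_S K c ρ
  refine ⟨hfin, ?_⟩
  change |((S K c ρ).ncard : ℝ) - _| ≤ _
  set P : ℝ := ∏ w, ρ w ^ w.mult with hP
  have hP0 : 0 ≤ P := Finset.prod_nonneg fun w _ => by have := hρ0 w; positivity
  set s := hfin.toFinset with hs
  have hcard : (S K c ρ).ncard = s.card := Set.ncard_eq_toFinset_card _ hfin
  rw [hcard]
  -- upper bound
  have hU : (s.card : ℝ) * vF K ≤ V₀ * (P * (1 + C₁ / r)) := by
    have h1 : (⋃ x ∈ s, Tr K x) ⊆ Uo K (mixedEmbedding K c) (fun w => ρ w + (D + 1)) := by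
      intro y hy
      simp only [Set.mem_iUnion] at hy
      obtain ⟨x, hx, hy⟩ := hy
      intro w
      have h2 := (mem_S K).1 (hfin.mem_toFinset.1 hx) w
      have h3 := hD _ ((mem_Tr K).1 hy) w
      have h4 := normAtPlace_add_le w (y - em K x) (em K x - mixedEmbedding K c)
      rw [sub_add_sub_cancel] at h4
      linarith
    have h5 := measure_mono (μ := volume) h1
    rw [volume_biUnion, volume_Uo _ _ _ (fun w => by have := hρ0 w; positivity),
      ENNReal.ofReal_le_ofReal_iff] at h5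
    · refine h5.trans ?_
      apply mul_le_mul_of_nonneg_left _ hV₀pos.le
      exact upper K (D + 1) (by linarith) r hr ρ hρ
    · apply mul_nonneg hV₀pos.le
      exact Finset.prod_nonneg fun w _ => by have := hρ0 w; positivity
  -- lower bound
  have hL : V₀ * (P * (1 - (d + 1) * D / r)) ≤ (s.card : ℝ) * vF K := by
    by_cases hDr : D ≤ r
    · have h1 : Uo K (mixedEmbedding K c) (fun w => ρ w - D) ⊆ (⋃ x ∈ s, Tr K x) := by
        intro y hy
        obtain ⟨x, hx⟩ := exists_Tr K y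
        simp only [Set.mem_iUnion]
        refine ⟨x, ?_, hx⟩
        rw [hs, hfin.mem_toFinset, mem_S]
        intro w
        have h2 := hy w
        have h3 := hD _ ((mem_Tr K).1 hx) w
        have h4 := normAtPlace_add_le w (-(y - em K x)) (y - mixedEmbedding K c)
        rw [normAtPlace_neg] at h4
        have h5 : -(y - em K x) + (y - mixedEmbedding K c) = em K x - mixedEmbedding K c := by abel
        rw [h5] at h4
        linarith
      have h5 := measure_mono (μ := volume) h1
      rw [volume_biUnion, volume_Uo _ _ _ (fun w => by linarith [hρ w]),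
        ENNReal.ofReal_le_ofReal_iff (by positivity)] at h5
      refine le_trans ?_ h5
      apply mul_le_mul_of_nonneg_left _ hV₀pos.le
      refine le_trans ?_ (lower K D hD0 r hr hDr ρ hρ)
      apply mul_le_mul_of_nonneg_left _ hP0
      have : (d : ℝ) * D / r ≤ (d + 1) * D / r := by gcongr; linarith
      linarith
    · have h1 : 1 - (d + 1) * D / r ≤ 0 := by
        have h2 : 1 ≤ D / r := by rw [le_div_iff₀ hr0]; linarith [not_le.1 hDr]
        have h3 : D / r ≤ (d + 1) * (D / r) := by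
          have : (0 : ℝ) ≤ d := Nat.cast_nonneg _
          nlinarith
        have h4 : (d + 1) * D / r = (d + 1) * (D / r) := by ring
        rw [h4]; linarith
      have h2 : V₀ * (P * (1 - (d + 1) * D / r)) ≤ 0 :=
        mul_nonpos_of_nonneg_of_nonpos hV₀pos.le (mul_nonpos_of_nonneg_of_nonpos hP0 h1)
      exact h2.trans (by positivity)
  have hU' : (s.card : ℝ) ≤ V₀ / vF K * (P * (1 + C₁ / r)) := by
    rw [div_mul_eq_mul_div, le_div_iff₀ hvF]; exact hU
  have hL' : V₀ / vF K * (P * (1 - (d + 1) * D / r)) ≤ s.card := by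
    rw [div_mul_eq_mul_div, div_le_iff₀ hvF]; exact hL
  have e1 : 0 ≤ V₀ / vF K * (P * (C₁ / r)) := by positivity
  have e2 : 0 ≤ V₀ / vF K * (P * ((d + 1) * D / r)) := by positivity
  have e3 : V₀ / vF K * (C₁ + (d + 1) * D) * P / r =
    V₀ / vF K * (P * (C₁ / r)) + V₀ / vF K * (P * ((d + 1) * D / r)) := by ring
  have e4 : V₀ / vF K * (P * (1 + C₁ / r)) = V₀ / vF K * P + V₀ / vF K * (P * (C₁ / r)) := by ring
  have e5 : V₀ / vF K * (P * (1 - (d + 1) * D / r)) =
    V₀ / vF K * P - V₀ / vF K * (P * ((d + 1) * D / r)) := by ring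
  rw [e3, abs_le]
  constructor <;> linarith
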