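import Pool.Agent.Work.MP_b29d7f_ns.Interface3
import Pool.Agent.Work.MP_b29d7f_ns_helper53.MK0

set_option autoImplicit false

open Finset Filter Topology MeasureTheory NumberField NumberField.mixedEmbedding IsDedekindDomain

namespace Pool.NS.GEO3_

set_option linter.unusedSectionVars false

open Pool.Agent.Work.MP_b29d7f_nt.Ded

variable (K : Type) [Field K] [NumberField K]

open scoped Classical

/-- the exponent of `t` in `g` -/
noncomputable def og (g : 𝓞 K) (t : HeightOneSpectrum (𝓞 K)) : ℕ :=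
  (Associates.mk t.asIdeal).count (Associates.mk (Ideal.span {g})).factors

lemma intVal_g {g : 𝓞 K} (hg : g ≠ 0) (t : HeightOneSpectrum (𝓞 K)) :
    t.intValuation g = WithZero.exp (-(og K g t : ℤ)) := by
  rw [HeightOneSpectrum.intValuation_if_neg _ hg]; rfl

lemma og_pos {g : 𝓞 K} (hg : g ≠ 0) (t : TT K g) : 1 ≤ og K g t.1 := by
  have h1 := (t.1.intValuation_lt_one_iff_mem g).2 t.2
  rw [intVal_g K hg, ← WithZero.exp_zero, WithZero.exp_lt_exp] at h1
  omega

lemma og_zero {g : 𝓞 K} (hg : g ≠ 0) (t : HeightOneSpectrum (𝓞 K)) (ht : g ∉ t.asIdeal) :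
    og K g t = 0 := by
  by_contra h
  apply ht
  rw [← t.intValuation_lt_one_iff_mem g, intVal_g K hg, ← WithZero.exp_zero, WithZero.exp_lt_exp]
  omega

lemma span_eq {g : 𝓞 K} (hg : g ≠ 0) [Fintype (TT K g)] :
    Ideal.span {g} = ∏ t : TT K g, t.1.asIdeal ^ og K g t.1 := by
  have h0 : (Ideal.span {g} : Ideal (𝓞 K)) ≠ 0 := by
    rwa [Ne, Ideal.zero_eq_bot, Ideal.span_singleton_eq_bot]
  have h1 := Ideal.finprod_heightOneSpectrum_factorization h0
  conv_lhs => rw [← h1]
  have h2 : (Function.mulSupport fun v : HeightOneSpectrum (𝓞 K) =>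
      v.maxPowDividing (Ideal.span {g})) ⊆
      ((Finset.univ : Finset (TT K g)).map ⟨Subtype.val, Subtype.val_injective⟩ :
        Finset (HeightOneSpectrum (𝓞 K))) := by
    intro t ht
    rw [Finset.mem_coe, Finset.mem_map]
    by_contra hgt
    apply ht
    change t.asIdeal ^ og K g t = 1
    rw [og_zero K hg t (fun h => hgt ⟨⟨t, h⟩, Finset.mem_univ _, rfl⟩), pow_zero]
  rw [finprod_eq_prod_of_mulSupport_subset _ h2, Finset.prod_map]
  rfl

lemma absNorm_g {g : 𝓞 K} (hg : g ≠ 0) [Fintype (TT K g)] :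
    (∏ w : InfinitePlace K, w (g : K) ^ w.mult : ℝ) =
      ∏ t : TT K g, (Nm t.1.asIdeal : ℝ) ^ og K g t.1 := by
  have h1 : (Ideal.absNorm (Ideal.span {g}) : ℝ) = ∏ w : InfinitePlace K, w (g : K) ^ w.mult := by
    rw [InfinitePlace.prod_eq_abs_norm, Ideal.absNorm_span_singleton, ← Algebra.coe_norm_int]
    simp
  rw [← h1, span_eq K hg, map_prod]
  push_cast
  apply Finset.prod_congr rfl
  intro t _
  rw [map_pow, Nat.cast_pow]
  rfl

lemma Nm_pos' (t : HeightOneSpectrum (𝓞 K)) : (0 : ℝ) < Nm t.asIdeal := by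
  have : 0 < Ideal.absNorm t.asIdeal := by
    rw [Nat.pos_iff_ne_zero, Ne, Ideal.absNorm_eq_zero_iff]
    exact t.ne_bot
  exact_mod_cast this

lemma main_aux {g : 𝓞 K} (hg : g ≠ 0) [Fintype (TT K g)] : ∃ C₁ : ℝ,
    ∀ (ρ : InfinitePlace K → ℝ) (m : TT K g → ℤ), (∀ w, 0 < ρ w) →
      C₁ ≤ ∑ w, (w.mult : ℝ) * Real.log (ρ w) + ∑ t : TT K g, Real.log (Nm t.1.asIdeal) * (m t : ℝ) →
      ∃ (y : 𝓞 K) (n : ℕ), y ≠ 0 ∧ (∀ w : InfinitePlace K, w ((y : K) / (g : K) ^ n) ≤ ρ w) ∧
        ∀ t : TT K g, t.1.valuation K ((y : K) / (g : K) ^ n) ≤ WithZero.exp (m t) := by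
  have hgK : (g : K) ≠ 0 := by
    intro h; exact hg (RingOfIntegers.coe_injective (h.trans (map_zero _).symm))
  set V₀ : ℝ := (convexBodyLTFactor K : ℝ) with hV₀
  have hV₀pos : 0 < V₀ := by
    have := one_le_convexBodyLTFactor K
    have h2 : (1 : ℝ) ≤ V₀ := by exact_mod_cast this
    linarith
  have hvF := Pool.NS.MK0_.vF_pos K
  set B : ℝ := Pool.NS.MK0_.vF K * 2 ^ Module.finrank ℝ (mixedSpace K) with hB
  have hB0 : 0 < B := by positivity
  refine ⟨Real.log (B / V₀) + 1, fun ρ m hρ hdeg => ?_⟩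
  -- the exponents
  set n : ℕ := ∑ t : TT K g, (m t).toNat with hn
  have hmn : ∀ t : TT K g, m t ≤ n := by
    intro t
    have h1 : (m t).toNat ≤ n := Finset.single_le_sum (f := fun t : TT K g => (m t).toNat)
      (fun _ _ => Nat.zero_le _) (Finset.mem_univ t)
    omega
  set k : TT K g → ℕ := fun t => ((n : ℤ) * og K g t.1 - m t).toNat with hk
  have hkz : ∀ t : TT K g, (k t : ℤ) = (n : ℤ) * og K g t.1 - m t := by
    intro t
    rw [hk]
    apply Int.toNat_of_nonneg
    have h1 := og_pos K hg t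
    have h2 := hmn t
    have h3 : (n : ℤ) * 1 ≤ (n : ℤ) * og K g t.1 := by
      apply mul_le_mul_of_nonneg_left _ (by positivity)
      exact_mod_cast h1
    linarith
  set J : Ideal (𝓞 K) := ∏ t : TT K g, t.1.asIdeal ^ k t with hJ
  have hJ0 : J ≠ 0 := by
    rw [hJ, Finset.prod_ne_zero_iff]
    intro t _
    exact pow_ne_zero _ t.1.ne_bot
  set I : (FractionalIdeal (nonZeroDivisors (𝓞 K)) K)ˣ :=
    FractionalIdeal.mk0 K ⟨J, mem_nonZeroDivisors_of_ne_zero hJ0⟩ with hI
  have hIJ : (I : FractionalIdeal (nonZeroDivisors (𝓞 K)) K) = (J : FractionalIdeal _ K) := rfl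
  set f : InfinitePlace K → NNReal := fun w => (ρ w * w (g : K) ^ n).toNNReal with hf
  have hfr : ∀ w, (f w : ℝ) = ρ w * w (g : K) ^ n := by
    intro w
    rw [hf]
    apply Real.coe_toNNReal
    have := (hρ w).le
    positivity
  -- the norm of J
  have hNJ : (Ideal.absNorm J : ℝ) * ∏ t : TT K g, (Nm t.1.asIdeal : ℝ) ^ (m t) =
      (∏ w : InfinitePlace K, w (g : K) ^ w.mult) ^ n := by
    rw [absNorm_g K hg, hJ, map_prod]
    push_cast
    rw [← Finset.prod_mul_distrib, ← Finset.prod_pow]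
    apply Finset.prod_congr rfl
    intro t _
    rw [map_pow]
    push_cast
    change (Nm t.1.asIdeal : ℝ) ^ k t * _ = _
    have h0 := (Nm_pos' K t.1).ne'
    rw [← zpow_natCast, ← zpow_add₀ h0, ← pow_mul, ← zpow_natCast, hkz]
    congr 1
    push_cast
    ring
  have hexp : (∏ w, ρ w ^ w.mult) * ∏ t : TT K g, (Nm t.1.asIdeal : ℝ) ^ (m t) =
      Real.exp (∑ w, (w.mult : ℝ) * Real.log (ρ w) +
        ∑ t : TT K g, Real.log (Nm t.1.asIdeal) * (m t : ℝ)) := by
    rw [Real.exp_add, Real.exp_sum, Real.exp_sum]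
    congr 1
    · apply Finset.prod_congr rfl
      intro w _
      rw [mul_comm, ← Real.rpow_def_of_pos (hρ w), Real.rpow_natCast]
    · apply Finset.prod_congr rfl
      intro t _
      rw [← Real.rpow_def_of_pos (Nm_pos' K t.1), Real.rpow_intCast]
  have hlt : B / V₀ < (∏ w, ρ w ^ w.mult) * ∏ t : TT K g, (Nm t.1.asIdeal : ℝ) ^ (m t) := by
    rw [hexp]
    calc B / V₀ = Real.exp (Real.log (B / V₀)) := (Real.exp_log (by positivity)).symm
      _ < _ := Real.exp_lt_exp.2 (by linarith)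
  have hAN : (0 : ℝ) < Ideal.absNorm J := by
    have : 0 < Ideal.absNorm J := by
      rw [Nat.pos_iff_ne_zero, Ne, Ideal.absNorm_eq_zero_iff]
      exact hJ0
    exact_mod_cast this
  have hreal : (Ideal.absNorm J : ℝ) * B < V₀ * ∏ w, (f w : ℝ) ^ w.mult := by
    have h1 : ∏ w, (f w : ℝ) ^ w.mult = (∏ w, ρ w ^ w.mult) *
        (∏ w : InfinitePlace K, w (g : K) ^ w.mult) ^ n := by
      rw [← Finset.prod_pow, ← Finset.prod_mul_distrib]
      apply Finset.prod_congr rfl
      intro w _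
      rw [hfr]
      ring
    rw [h1, ← hNJ]
    rw [div_lt_iff₀ hV₀pos] at hlt
    calc (Ideal.absNorm J : ℝ) * B < (Ideal.absNorm J : ℝ) *
        (((∏ w, ρ w ^ w.mult) * ∏ t : TT K g, (Nm t.1.asIdeal : ℝ) ^ (m t)) * V₀) := by
          gcongr
      _ = _ := by ring
  have hM : minkowskiBound K I < volume (convexBodyLT K f) := by
    rw [convexBodyLT_volume, minkowskiBound, volume_fundamentalDomain_fractionalIdealLatticeBasis,
      hIJ, FractionalIdeal.coeIdeal_absNorm]
    have e1 : ENNReal.ofReal (((Ideal.absNorm J : ℕ) : ℚ) : ℝ) *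
        volume (ZSpan.fundamentalDomain (latticeBasis K)) *
          (2 : ENNReal) ^ Module.finrank ℝ (mixedSpace K) =
        ENNReal.ofReal ((Ideal.absNorm J : ℝ) * B) := by
      rw [hB, ENNReal.ofReal_mul (by positivity), ENNReal.ofReal_mul hvF.le,
        Pool.NS.MK0_.vF, ENNReal.ofReal_toReal (Pool.NS.MK0_.volF_ne_top K),
        ENNReal.ofReal_pow (by norm_num), ENNReal.ofReal_ofNat, mul_assoc]
      simp
    have e2 : (convexBodyLTFactor K : ENNReal) * ∏ w, ((f w : ENNReal)) ^ w.mult =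
        ENNReal.ofReal (V₀ * ∏ w, (f w : ℝ) ^ w.mult) := by
      have : V₀ * ∏ w, (f w : ℝ) ^ w.mult =
          ((convexBodyLTFactor K * ∏ w, f w ^ w.mult : NNReal) : ℝ) := by
        push_cast; rfl
      rw [this, ENNReal.ofReal_coe_nnreal]
      push_cast
      rfl
    have e3 : ENNReal.ofReal ((Ideal.absNorm J : ℝ) * B) <
        ENNReal.ofReal (V₀ * ∏ w, (f w : ℝ) ^ w.mult) :=
      (ENNReal.ofReal_lt_ofReal_iff (lt_of_le_of_lt (by positivity) hreal)).2 hreal
    rw [← e1, ← e2] at e3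
    exact_mod_cast e3
  obtain ⟨a, haI, ha0, hla⟩ := exists_ne_zero_mem_ideal_lt K I hM
  rw [hIJ, FractionalIdeal.mem_coeIdeal] at haI
  obtain ⟨y, hyJ, rfl⟩ := haI
  refine ⟨y, n, ?_, ?_, ?_⟩
  · rintro rfl; exact ha0 (map_zero _)
  · intro w
    rw [map_div₀, map_pow]
    have hwg : 0 < w (g : K) := w.pos_iff.2 hgK
    rw [div_le_iff₀ (by positivity)]
    have := hla w
    rw [hfr] at this
    exact this.le
  · intro t
    rw [map_div₀, map_pow, RingOfIntegers.coe_eq_algebraMap, RingOfIntegers.coe_eq_algebraMap,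
      HeightOneSpectrum.valuation_of_algebraMap, HeightOneSpectrum.valuation_of_algebraMap,
      intVal_g K hg]
    have h1 : y ∈ t.1.asIdeal ^ k t := by
      have : J ≤ t.1.asIdeal ^ k t :=
        Ideal.le_of_dvd (Finset.dvd_prod_of_mem (fun t : TT K g => t.1.asIdeal ^ k t)
          (Finset.mem_univ t))
      exact this hyJ
    rw [← HeightOneSpectrum.intValuation_le_pow_iff_mem] at h1
    rw [← WithZero.exp_nsmul, div_le_iff₀ (WithZero.exp_pos), ← WithZero.exp_add]
    refine h1.trans (WithZero.exp_le_exp.2 ?_)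
    rw [hkz]
    simp only [nsmul_eq_mul]
    linarith

/-- the complex number with given coordinates -/
noncomputable def toC {k : ℕ} (u : E k) : ℂ :=
  ⟨if h : 0 < k then u ⟨0, h⟩ else 0, if h : 1 < k then u ⟨1, h⟩ else 0⟩

lemma toC_sub {k : ℕ} (u v : E k) : toC (u - v) = toC u - toC v := by
  apply Complex.ext
  · simp only [toC, Complex.sub_re]; split_ifs <;> simp
  · simp only [toC, Complex.sub_im]; split_ifs <;> simp

lemma norm_toC {k : ℕ} (hk : k = 1 ∨ k = 2) (u : E k) : ‖u‖ = ‖toC u‖ := by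
  rcases hk with rfl | rfl
  · rw [EuclideanSpace.norm_eq, Complex.norm_def, Complex.normSq_apply]
    congr 1
    simp [toC, pow_two]
  · rw [EuclideanSpace.norm_eq, Complex.norm_def, Complex.normSq_apply]
    congr 1
    simp [toC, pow_two]

lemma covering : ∃ r₀ : ℝ, 0 < r₀ ∧ ∀ z : InfinitePlace K → ℂ, (∀ w, w.IsReal → (z w).im = 0) →
    ∃ o : 𝓞 K, ∀ w, ‖z w - w.embedding (o : K)‖ ≤ r₀ := by
  obtain ⟨D, hD0, hD⟩ := Pool.NS.MK0_.exists_D K
  refine ⟨D + 1, by linarith, fun z hz => ?_⟩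
  obtain ⟨o, ho⟩ := Pool.NS.MK0_.exists_Tr K
    ((fun w => (z w.1).re, fun w => z w.1) : mixedSpace K)
  refine ⟨o, fun w => ?_⟩
  have h1 := hD _ ((Pool.NS.MK0_.mem_Tr K).1 ho) w
  refine le_trans (le_of_eq ?_) (h1.trans (by linarith))
  by_cases hw : w.IsReal
  · rw [normAtPlace_apply_of_isReal hw]
    change _ = ‖(z w).re - (mixedEmbedding K (o : K)).1 ⟨w, hw⟩‖
    rw [mixedEmbedding_apply_isReal, ← InfinitePlace.embedding_of_isReal_apply hw]
    have h2 : z w = ((z w).re : ℂ) := by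
      apply Complex.ext
      · simp
      · simp [hz w hw]
    conv_lhs => rw [h2]
    rw [← Complex.ofReal_sub, Complex.norm_real]
  · have hw' := InfinitePlace.not_isReal_iff_isComplex.1 hw
    rw [normAtPlace_apply_of_isComplex hw']
    change _ = ‖z w - (mixedEmbedding K (o : K)).2 ⟨w, hw'⟩‖
    rw [mixedEmbedding_apply_isComplex]

lemma toC_em {g : 𝓞 K} (hg : g ≠ 0) (R : Type) [CommRing R] [Algebra R K] (x : R)
    (w : InfinitePlace K) : toC (k := w.mult) ((dat K hg R).em x w) =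
      w.embedding (algebraMap R K x) := by
  by_cases hw : w.IsReal
  · have hm : w.mult = 1 := InfinitePlace.mult_isReal ⟨w, hw⟩
    apply Complex.ext
    · change (if h : 0 < w.mult then _ else _) = _
      rw [dif_pos (by omega)]
      rfl
    · change (if h : 1 < w.mult then _ else _) = _
      rw [dif_neg (by omega), ← InfinitePlace.embedding_of_isReal_apply hw, Complex.ofReal_im]
  · have hw' := InfinitePlace.not_isReal_iff_isComplex.1 hw
    have hm : w.mult = 2 := InfinitePlace.mult_isComplex ⟨w, hw'⟩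
    apply Complex.ext
    · change (if h : 0 < w.mult then _ else _) = _
      rw [dif_pos (by omega)]
      rfl
    · change (if h : 1 < w.mult then _ else _) = _
      rw [dif_pos (by omega)]
      rfl

end Pool.NS.GEO3_

open Pool.NS.GEO3_ Pool.NS in
theorem Pool.NS.stmt_GEO3 (h1 : Pool.NS.Stmt_GEO1) : Pool.NS.Stmt_GEO3 := by
  intro K _ _ g hg R _ _ _ hS
  obtain ⟨-, -, he, -, hem, hinj, -, -, -⟩ := h1 K g hg R
  let _ : Fintype (TT K g) := @Fintype.ofFinite _ (finite_TT K hg)
  obtain ⟨C₁, hC₁⟩ := main_aux K hg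
  obtain ⟨r₀, hr₀, hcov⟩ := covering K
  have hgK : (g : K) ≠ 0 := by
    intro h; exact hg (RingOfIntegers.coe_injective (h.trans (map_zero _).symm))
  refine ⟨C₁ + Module.finrank ℚ K * Real.log r₀, ?_⟩
  intro ρ m hρ hdeg c a
  have hρ' : ∀ w : InfinitePlace K, 0 < ρ w := hρ
  obtain ⟨y, n, hy0, hyw, hyt⟩ := hC₁ (fun w => ρ w / r₀) m
    (fun w => div_pos (hρ' w) hr₀) (by
      have e1 : (dat K hg R).deg ρ m = ∑ w : InfinitePlace K, (w.mult : ℝ) * Real.log (ρ w) +
        ∑ t : TT K g, Real.log (Pool.Agent.Work.MP_b29d7f_nt.Ded.Nm t.1.asIdeal) * (m t : ℝ) := rfl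
      have e2 : ∑ w : InfinitePlace K, (w.mult : ℝ) * Real.log (ρ w / r₀) =
          ∑ w : InfinitePlace K, (w.mult : ℝ) * Real.log (ρ w) -
            Module.finrank ℚ K * Real.log r₀ := by
        rw [← InfinitePlace.sum_mult_eq, Nat.cast_sum, Finset.sum_mul, ← Finset.sum_sub_distrib]
        apply Finset.sum_congr rfl
        intro w _
        rw [Real.log_div (hρ' w).ne' hr₀.ne']
        ring
      rw [e1] at hdeg
      rw [e2]
      linarith)
  have htow := hS.tower
  have haw := hS.away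
  have hu : IsUnit (algebraMap (𝓞 K) R g) := IsLocalization.Away.algebraMap_isUnit g
  obtain ⟨u, hu⟩ := hu
  set yR : R := algebraMap (𝓞 K) R y * ((u⁻¹ : Rˣ) : R) ^ n with hyR
  have htw : ∀ x : 𝓞 K, algebraMap R K (algebraMap (𝓞 K) R x) = (x : K) := fun x =>
    (IsScalarTower.algebraMap_apply (𝓞 K) R K x).symm
  have hyK : algebraMap R K yR = (y : K) / (g : K) ^ n := by
    have h2 : algebraMap R K ((u⁻¹ : Rˣ) : R) = (g : K)⁻¹ := by
      have h3 : algebraMap R K ((u⁻¹ : Rˣ) : R) * (g : K) = 1 := by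
        rw [← htw g, ← hu, ← map_mul, Units.inv_mul, map_one]
      exact eq_inv_of_mul_eq_one_left h3
    rw [hyR, map_mul, map_pow, h2, htw, inv_pow, div_eq_mul_inv]
  have hyne : algebraMap R K yR ≠ 0 := by
    rw [hyK]
    apply div_ne_zero _ (pow_ne_zero _ hgK)
    intro h; exact hy0 (RingOfIntegers.coe_injective (h.trans (map_zero _).symm))
  have hc : ∀ w : InfinitePlace K, w.IsReal → (toC (k := w.mult) (c w)).im = 0 := by
    intro w hw
    have hm : w.mult = 1 := InfinitePlace.mult_isReal ⟨w, hw⟩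
    change (if h : 1 < w.mult then _ else _) = _
    rw [dif_neg (by omega)]
  have him : ∀ (x : K) (w : InfinitePlace K), w.IsReal → (w.embedding x).im = 0 := by
    intro x w hw
    rw [← InfinitePlace.embedding_of_isReal_apply hw, Complex.ofReal_im]
  obtain ⟨o, ho⟩ := hcov (fun w => (toC (k := w.mult) (c w) - w.embedding (algebraMap R K a)) /
      w.embedding (algebraMap R K yR)) (by
    intro w hw
    have e1 : ∀ z : ℂ, z.im = 0 → z = ((z.re : ℝ) : ℂ) := by
      intro z hz
      apply Complex.ext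
      · simp
      · simp [hz]
    rw [e1 _ (hc w hw), e1 _ (him (algebraMap R K a) w hw), e1 _ (him (algebraMap R K yR) w hw),
      ← Complex.ofReal_sub, ← Complex.ofReal_div, Complex.ofReal_im])
  have key : ∀ w : InfinitePlace K,
      ‖w.embedding (algebraMap R K (a + yR * algebraMap (𝓞 K) R o)) - toC (k := w.mult) (c w)‖
        ≤ ρ w := by
    intro w
    have hw0 : w.embedding (algebraMap R K yR) ≠ 0 := by
      rw [Ne, map_eq_zero]; exact hyne
    have e3 : w.embedding (algebraMap R K (a + yR * algebraMap (𝓞 K) R o)) - toC (k := w.mult) (c w)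
        = - (w.embedding (algebraMap R K yR) * ((toC (k := w.mult) (c w) -
          w.embedding (algebraMap R K a)) / w.embedding (algebraMap R K yR) -
            w.embedding (o : K))) := by
      rw [map_add, map_mul, map_add, map_mul, htw, mul_sub, mul_div_cancel₀ _ hw0]
      ring
    rw [e3, norm_neg, norm_mul, InfinitePlace.norm_embedding_eq]
    have e4 : w (algebraMap R K yR) ≤ ρ w / r₀ := by rw [hyK]; exact hyw w
    calc w (algebraMap R K yR) * _ ≤ (ρ w / r₀) * r₀ := by
          apply mul_le_mul e4 (ho w) (norm_nonneg _)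
          exact (div_pos (hρ' w) hr₀).le
      _ = ρ w := div_mul_cancel₀ _ hr₀.ne'
  refine ⟨a + yR * algebraMap (𝓞 K) R o, ?_, ?_⟩
  · intro w
    rw [norm_toC (he w), toC_sub]
    have e2 := toC_em K hg R (a + yR * algebraMap (𝓞 K) R o) w
    have e4 := key w
    rw [← e2] at e4
    exact e4
  · intro t
    by_cases hx : a + yR * algebraMap (𝓞 K) R o = a
    · exact Or.inl hx
    · right
      rw [add_sub_cancel_left]
      have hne : yR * algebraMap (𝓞 K) R o ≠ 0 := by
        intro h; apply hx; rw [h, add_zero]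
      have hneK := hinj _ hne
      change WithZero.log (t.1.valuation K (algebraMap R K (yR * algebraMap (𝓞 K) R o))) ≤ m t
      rw [WithZero.log_le_iff_le_exp ((Valuation.ne_zero_iff _).2 hneK), map_mul, map_mul, htw]
      have e5 : t.1.valuation K (o : K) ≤ 1 := t.1.valuation_le_one o
      have e6 : t.1.valuation K (algebraMap R K yR) ≤ WithZero.exp (m t) := by
        rw [hyK]; exact hyt t
      calc t.1.valuation K (algebraMap R K yR) * t.1.valuation K (o : K)
          ≤ WithZero.exp (m t) * 1 := mul_le_mul' e6 e5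
        _ = _ := mul_one _
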